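import Mathlib
import Pool.Agent.W463.VB.LinMain

set_option autoImplicit false

/-!
Linear circuits with limited cancellation need `n log n` edges.

`pathMass C j v` is the mass of the variable `x_j` at the node `v`: the sum, over all directed paths
from the sources carrying `x_j` to `v`, of the product of the absolute values of the scalars on
the path. (The coefficient of `x_j` at `v` is the same sum without the absolute values.) The
scalars are arbitrary elements of the field.
-/

namespace Pool.Agent.Results.MP_5daf37_lc.LimitedCancellation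

open Finset H633LC
open Pool.Agent.W463.VB

/-- **Main theorem.** -/
theorem result :
    (∀ (F : Type) [NormedField F] (n : ℕ) (C : LinCircuit F n n) (A : Fin n → Fin n → F),
      C.Computes A → ∀ (s : ℕ) (p q : Fin s → Fin n), Function.Injective q → ∀ K : Fin s → ℝ,
      (∀ a b, (pathMass C (q b) (C.out (p a)) : ℝ) ≤ K a) →
      ‖Matrix.det (Matrix.of fun a b => A (p a) (q b))‖ ^ 5 ≤ 4 ^ C.size * (∏ a, K a) ^ 5) ∧
    (∀ (F : Type) [RCLike F] (n : ℕ), 1 ≤ n → ∀ C : LinCircuit F n n,
      C.Computes (fun x y => ((walsh n x y : ℤ) : F)) → ∀ ε : ℝ,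
      (∀ i j, (pathMass C j (C.out i) : ℝ) ≤ (n : ℝ) ^ (1 / 2 - ε)) →
      5 / 4 * n * (ε * Real.logb 2 n - 1 / 2) ≤ C.size) := by
  refine ⟨?_, ?_⟩
  · intro F _ n C A hC s p q hq K hK
    exact lin_general C A hC p q hq K hK
  · intro F _ n hn C hC ε hK
    exact lin_walsh hn C hC ε hK

end Pool.Agent.Results.MP_5daf37_lc.LimitedCancellation
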