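import Pool.Agent.W946.LcEx

set_option autoImplicit false

/-!
# Linear circuits for explicit matrices need `(4 - o(1)) n` additions and size `(8 - o(1)) n`

Linear circuits (`LinCircuit`, `Computes`, `edges`, `size`, `additions`) are defined in
`Pool.Agent.W946.LcMain`, the weight `wt` (number of nonzero coordinates) in
`Pool.Agent.W946.LcFwd`, `hilbert` and `IsComplexHadamard` in `Pool.Agent.W946.LcEx`.
-/

namespace Pool.Agent.Results.MP_5daf37_lc.SizeEightN

open Pool.Agent.W946.Lc

universe u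

/-- For every `δ > 0`:
(1) there is `M` such that for every field `F` and every `n × n` matrix `A` over `F` for which all
`(x, A x)`, `x ≠ 0`, and all `(y, yᵀ A)`, `y ≠ 0`, have at least `M (1 + log n)` nonzero
coordinates, every linear circuit over `F` of any fan-in which computes `A` needs
`(4 - δ) n` additions of two numbers, has `(6 - δ) n` edges and size at least `(8 - δ) n`;
(2) there is `n₀` such that this is so for the Hilbert matrices of order `n ≥ n₀`, over all fields
of characteristic zero;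
(3) there is `n₀` such that this is so for all complex Hadamard matrices of order `n ≥ n₀`
(for instance the matrices of the discrete Fourier transform) over the complex numbers. -/
theorem result (δ : ℝ) (hδ : 0 < δ) :
    (∃ M : ℝ, 0 < M ∧ ∀ (F : Type u) [Field F] (n : ℕ), 1 ≤ n →
      ∀ A : Matrix (Fin n) (Fin n) F,
      (∀ x : Fin n → F, x ≠ 0 → M * (1 + Real.log n) ≤ (wt x : ℝ) + wt (A.mulVec x)) →
      (∀ y : Fin n → F, y ≠ 0 → M * (1 + Real.log n) ≤ (wt y : ℝ) + wt (Matrix.vecMul y A)) →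
      ∀ C : LinCircuit F n, C.Computes A →
        (4 - δ) * n ≤ C.additions ∧ (6 - δ) * n ≤ C.edges ∧ (8 - δ) * n ≤ C.size) ∧
    (∃ n₀ : ℕ, ∀ (F : Type u) [Field F] [CharZero F] (n : ℕ), n₀ ≤ n →
      ∀ C : LinCircuit F n, C.Computes (hilbert F n) →
        (4 - δ) * n ≤ C.additions ∧ (6 - δ) * n ≤ C.edges ∧ (8 - δ) * n ≤ C.size) ∧
    ∃ n₀ : ℕ, ∀ n : ℕ, n₀ ≤ n → ∀ A : Matrix (Fin n) (Fin n) ℂ, IsComplexHadamard A →
      ∀ C : LinCircuit ℂ n, C.Computes A →
        (4 - δ) * n ≤ C.additions ∧ (6 - δ) * n ≤ C.edges ∧ (8 - δ) * n ≤ C.size := by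
  refine ⟨bound.{u} δ hδ, ?_, ?_⟩
  · obtain ⟨M, _, h⟩ := bound.{u} δ hδ
    obtain ⟨n₀, hn₀, h0⟩ := exists_large M
    refine ⟨n₀, fun F _ _ n hn C hC => ?_⟩
    have key : ∀ x : Fin n → F, x ≠ 0 →
        M * (1 + Real.log n) ≤ (wt x : ℝ) + wt ((hilbert F n).mulVec x) := by
      intro x hx
      have h1 := hilbert_uncertainty hx
      have h2 : ((n : ℝ)) + 1 ≤ (wt x : ℝ) + wt ((hilbert F n).mulVec x) := by exact_mod_cast h1
      have h3 := two_sqrt_le (n := n) (a := n) (b := 1) (by omega)
      have h4 := h0 n hn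
      push_cast at h3
      linarith
    refine h F n (by omega) (hilbert F n) key (fun y hy => ?_) C hC
    rw [hilbert_vecMul]
    exact key y hy
  · obtain ⟨M, _, h⟩ := bound.{0} δ hδ
    obtain ⟨n₀, hn₀, h0⟩ := exists_large M
    refine ⟨n₀, fun n hn A hA C hC => ?_⟩
    have h1 : 1 ≤ n := by omega
    refine h ℂ n h1 A (fun x hx => (h0 n hn).trans (two_sqrt_le
      (hadamard_uncertainty hA.1 (hA.conj_mul h1) hx))) (fun y hy => ?_) C hC
    rw [← Matrix.mulVec_transpose]
    exact (h0 n hn).trans (two_sqrt_le (hadamard_uncertainty (fun i j => hA.1 j i)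
      hA.transpose hy))

end Pool.Agent.Results.MP_5daf37_lc.SizeEightN
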