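import Pool.Agent.W896.LP.Reg

/-!
# Linear programs with few registers and a stack for explicit matrices

Linear straight-line programs with `S` registers and a stack of unlimited height for field elements
are considered. The steps are: read an input, write an output, push a value, pop a value; in every
step the contents of the registers may be changed by an arbitrary linear map, free of charge. Only
the number `T` of the reads and writes is counted; the operations on the stack are free of charge
as well, so recursion is free. If a linear circuit is evaluated in this way, with its intermediate
results in the registers and on the stack, then `T` is at most its size plus the number of the
inputs which have to be read again.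

The theorem says that `n ^ 2 ≤ 320 * S * T` for explicit matrices: for the Hilbert matrices, over
all fields of characteristic zero (in particular over the real and over the complex numbers), and
for all complex Hadamard matrices, for instance for the matrices of the discrete Fourier transform
and for the rational Walsh-Hadamard matrices. So a superlinear lower bound holds for all linear
programs with `o(n)` registers and a stack. The fast Fourier transform has `T = O (n)` with `n`
registers, and the trivial algorithm has `T = O (n ^ 2)` with one register.

Proof. A computation is cut into pieces: by an induction on the nesting of the pushes and pops it
is covered by `O (T / n)` pieces with at most `n / 2` reads each and at most four holes, in which a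
part of the computation that begins and ends at the same height of the stack has been left out. All
forms which occur in a piece are combinations of the inputs which are read in it and of the
contents of the registers at its beginning and after the holes. So outside of the columns which are
read the rows which are written have rank at most `5 S`. But in the above matrices every set of
rows has outside of any `n / 2` columns a rank of at least half of its size: for Hilbert matrices
because all minors are different from zero, for Hadamard matrices by comparison of the Frobenius
norm and the operator norm.
-/

set_option autoImplicit false

namespace Pool.Agent.Results.MP_5daf37_lc.StackPrograms

open Pool.Agent.W896.LP Pool.Agent.W946.Lc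

/-- Let a linear program with `S ≥ 1` registers and a stack compute the matrix `A` of order `n`
with at most `T` reads and writes.
(1) If outside of every set of at most `n / 2` columns every set `O` of rows has rank at least
`|O| / 2` then `n ^ 2 ≤ 320 * S * T`, over every field.
(2) This is so for the Hilbert matrix over every field of characteristic zero.
(3) This is so for all complex Hadamard matrices. -/
theorem result (n S T : ℕ) (hS : 1 ≤ S) :
    (∀ (F : Type) [Field F] (A : Fin n → Fin n → F), Reg A →
      ∀ P : List (Ins F (Fin n) (Fin n) (Fin S)), Computes P A T → n ^ 2 ≤ 320 * S * T) ∧
    (∀ (F : Type) [Field F] [CharZero F] (P : List (Ins F (Fin n) (Fin n) (Fin S))),
      Computes P (fun i j => hilbert F n i j) T → n ^ 2 ≤ 320 * S * T) ∧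
    (∀ (A : Matrix (Fin n) (Fin n) ℂ), IsComplexHadamard A →
      ∀ P : List (Ins ℂ (Fin n) (Fin n) (Fin S)), Computes P (fun i j => A i j) T →
      n ^ 2 ≤ 320 * S * T) :=
  ⟨fun _ _ _ hA P h => lin_main hA hS P h,
    fun _ _ _ P h => lin_main (reg_hilbert n) hS P h,
    fun A hA P h => lin_main (reg_hadamard A hA) hS P h⟩

end Pool.Agent.Results.MP_5daf37_lc.StackPrograms
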